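import Mathlib

/-!
# Number theory for `H25D/PLAN.md`, Theorem A (MP_273810), block (a)

`N` is a prime, `sn k = sin (2 pi k / N)`, `cs k = cos (2 pi k / N)` for `k : ZMod N`.

* `dvd_eval_one`: an integer polynomial which vanishes at a primitive `N`-th root of unity has
  value at `1` divisible by `N`;
* `rel_ne`: `2 * sum F m * sn (k m) * sn s` is never `cs b` (`N` odd), integers `F m`;
* `balance`: `sum F k * sn k = 0` with integers `F k` implies `F k = F (-k)`;
* `refl_closed`: a nonempty set of copies closed under two different reflections is everything;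
* `chain`: the mirror chain runs through all copies exactly once.
-/

set_option autoImplicit false

open Polynomial

namespace Pool.Agent.H34D

/-- an integer polynomial with a primitive `N`-th root as a zero is divisible by the cyclotomic
polynomial -/
theorem cyclotomic_dvd {N : ℕ} (hN : 0 < N) {z : ℂ} (hz : IsPrimitiveRoot z N) (f : ℤ[X])
    (hf : aeval z f = 0) : cyclotomic N ℤ ∣ f := by
  rw [cyclotomic_eq_minpoly hz hN]
  exact minpoly.isIntegrallyClosed_dvd (hz.isIntegral hN) hf

theorem dvd_eval_one {N : ℕ} (hN : N.Prime) {z : ℂ} (hz : IsPrimitiveRoot z N) (f : ℤ[X])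
    (hf : aeval z f = 0) : (N : ℤ) ∣ f.eval 1 := by
  have : Fact N.Prime := ⟨hN⟩
  obtain ⟨g, rfl⟩ := cyclotomic_dvd hN.pos hz f hf
  rw [eval_mul, eval_one_cyclotomic_prime]
  exact dvd_mul_right _ _

/-- `sin (2 pi k / N)` for a residue class `k` -/
noncomputable def sn {N : ℕ} (k : ZMod N) : ℝ := Real.sin (2 * Real.pi * k.val / N)

/-- `cos (2 pi k / N)` for a residue class `k` -/
noncomputable def cs {N : ℕ} (k : ZMod N) : ℝ := Real.cos (2 * Real.pi * k.val / N)

section
variable {N : ℕ} [NeZero N]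

theorem char_eq (k : ZMod N) :
    ZMod.stdAddChar k = (cs k : ℂ) + (sn k : ℂ) * Complex.I := by
  have h1 : (ZMod.stdAddChar k : ℂ) = Complex.exp (2 * Real.pi * Complex.I * k.val / N) := by
    have := ZMod.stdAddChar_coe (N := N) (k.val : ℤ)
    simpa using this
  rw [h1, cs, sn, Complex.ofReal_cos, Complex.ofReal_sin, ← Complex.exp_mul_I]
  congr 1
  push_cast
  ring

theorem char_neg_eq (k : ZMod N) :
    ZMod.stdAddChar (-k) = (cs k : ℂ) - (sn k : ℂ) * Complex.I := by
  have h1 : (ZMod.stdAddChar k : ℂ) * ZMod.stdAddChar (-k) = 1 := by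
    rw [← AddChar.map_add_eq_mul]; simp
  have h2 : ((cs k : ℂ) + (sn k : ℂ) * Complex.I) * ((cs k : ℂ) - (sn k : ℂ) * Complex.I) = 1 := by
    have h3 : (cs k : ℂ) ^ 2 + (sn k : ℂ) ^ 2 = 1 := by
      have := Real.cos_sq_add_sin_sq (2 * Real.pi * k.val / N)
      unfold cs sn
      exact_mod_cast this
    linear_combination h3 - (sn k : ℂ) ^ 2 * Complex.I_sq
  have h4 : ((cs k : ℂ) + (sn k : ℂ) * Complex.I) ≠ 0 := fun h => by simp [h] at h2
  rw [char_eq] at h1
  exact mul_left_cancel₀ h4 (h1.trans h2.symm)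

theorem sn_neg (k : ZMod N) : sn (-k) = -sn k := by
  have h := char_neg_eq k
  rw [char_eq] at h
  have := congrArg Complex.im h
  simpa using this

theorem cs_neg (k : ZMod N) : cs (-k) = cs k := by
  have h := char_neg_eq k
  rw [char_eq] at h
  have := congrArg Complex.re h
  simpa using this

theorem char_sub (k : ZMod N) :
    (ZMod.stdAddChar k : ℂ) - ZMod.stdAddChar (-k) = 2 * Complex.I * (sn k : ℂ) := by
  rw [char_neg_eq, char_eq]; ring

theorem char_add (k : ZMod N) :
    (ZMod.stdAddChar k : ℂ) + ZMod.stdAddChar (-k) = 2 * (cs k : ℂ) := by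
  rw [char_neg_eq, char_eq]; ring

/-- the values for integers -/
theorem sin_int (k : ℤ) : Real.sin (2 * Real.pi * k / N) = sn (k : ZMod N) := by
  have h := char_eq ((k : ZMod N))
  have h1 := ZMod.stdAddChar_coe (N := N) k
  rw [h1] at h
  have h2 : Complex.exp (2 * Real.pi * Complex.I * k / N) =
      (Real.cos (2 * Real.pi * k / N) : ℂ) + (Real.sin (2 * Real.pi * k / N) : ℂ) * Complex.I := by
    rw [Complex.ofReal_cos, Complex.ofReal_sin, ← Complex.exp_mul_I]
    congr 1
    push_cast
    ring
  rw [h2] at h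
  have := congrArg Complex.im h
  simpa [Complex.add_im, Complex.mul_im, -Complex.ofReal_cos, -Complex.ofReal_sin] using this

theorem cos_int (k : ℤ) : Real.cos (2 * Real.pi * k / N) = cs (k : ZMod N) := by
  have h := char_eq ((k : ZMod N))
  have h1 := ZMod.stdAddChar_coe (N := N) k
  rw [h1] at h
  have h2 : Complex.exp (2 * Real.pi * Complex.I * k / N) =
      (Real.cos (2 * Real.pi * k / N) : ℂ) + (Real.sin (2 * Real.pi * k / N) : ℂ) * Complex.I := by
    rw [Complex.ofReal_cos, Complex.ofReal_sin, ← Complex.exp_mul_I]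
    congr 1
    push_cast
    ring
  rw [h2] at h
  have := congrArg Complex.re h
  simpa [Complex.add_re, Complex.mul_re, -Complex.ofReal_cos, -Complex.ofReal_sin] using this

/-- the standard primitive root -/
noncomputable def zeta (N : ℕ) : ℂ := Complex.exp (2 * Real.pi * Complex.I / N)

theorem zeta_prim : IsPrimitiveRoot (zeta N) N := Complex.isPrimitiveRoot_exp N (NeZero.ne N)

theorem zeta_pow (k : ZMod N) : zeta N ^ k.val = ZMod.stdAddChar k := by
  have h1 : (ZMod.stdAddChar k : ℂ) = Complex.exp (2 * Real.pi * Complex.I * k.val / N) := by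
    have := ZMod.stdAddChar_coe (N := N) (k.val : ℤ)
    simpa using this
  rw [h1, zeta, ← Complex.exp_nat_mul]
  congr 1
  ring

end

/-- **A1 (a)**: an integer combination of products of sines with one fixed sine is never a
cosine -/
theorem rel_ne {N : ℕ} (hN : N.Prime) (hodd : N ≠ 2) {ι : Type*} (S : Finset ι) (F : ι → ℤ)
    (k : ι → ZMod N) (s b : ZMod N) :
    2 * ∑ m ∈ S, (F m : ℝ) * sn (k m) * sn s ≠ cs b := by
  have : Fact N.Prime := ⟨hN⟩
  have : NeZero N := ⟨hN.ne_zero⟩
  intro h
  set f : ℤ[X] := (∑ m ∈ S, C (F m) * (X ^ (k m).val - X ^ (-(k m)).val) *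
      (X ^ s.val - X ^ (-s).val)) + (X ^ b.val + X ^ (-b).val) with hf
  have h1 : aeval (zeta N) f = 0 := by
    have h2 : aeval (zeta N) f = (∑ m ∈ S, (F m : ℂ) *
        (ZMod.stdAddChar (k m) - ZMod.stdAddChar (-(k m))) *
        (ZMod.stdAddChar s - ZMod.stdAddChar (-s))) +
        (ZMod.stdAddChar b + ZMod.stdAddChar (-b)) := by
      simp only [hf, map_add, map_sum, map_mul, map_sub, map_pow, aeval_X, zeta_pow, aeval_C]
      simp
    rw [h2]
    simp only [char_sub, char_add]
    have h3 : (2 * ∑ m ∈ S, (F m : ℂ) * (sn (k m) : ℂ) * (sn s : ℂ)) = (cs b : ℂ) := by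
      exact_mod_cast h
    have h4 : ∀ m ∈ S, (F m : ℂ) * (2 * Complex.I * (sn (k m) : ℂ)) *
        (2 * Complex.I * (sn s : ℂ)) = (-4) * ((F m : ℂ) * (sn (k m) : ℂ) * (sn s : ℂ)) := by
      intro m _
      linear_combination 4 * (F m : ℂ) * (sn (k m) : ℂ) * (sn s : ℂ) * Complex.I_sq
    rw [Finset.sum_congr rfl h4, ← Finset.mul_sum]
    linear_combination (-2) * h3
  have h5 := dvd_eval_one hN zeta_prim f h1
  have h6 : f.eval 1 = 2 := by
    simp [hf, eval_finsetSum]
  rw [h6] at h5
  have h7 : N ∣ 2 := by exact_mod_cast h5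
  have h8 := (Nat.prime_dvd_prime_iff_eq hN Nat.prime_two).mp h7
  exact hodd h8

/-- the same with both signs of the cosine -/
theorem rel_ne_neg {N : ℕ} (hN : N.Prime) (hodd : N ≠ 2) {ι : Type*} (S : Finset ι) (F : ι → ℤ)
    (k : ι → ZMod N) (s b : ZMod N) :
    2 * ∑ m ∈ S, (F m : ℝ) * sn (k m) * sn s ≠ -cs b := by
  intro h
  have := rel_ne hN hodd S (fun m => - F m) k s b
  apply this
  have h1 : ∀ m ∈ S, (((-F m : ℤ)) : ℝ) * sn (k m) * sn s =
      (-1) * ((F m : ℝ) * sn (k m) * sn s) := by
    intro m _; push_cast; ring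
  rw [Finset.sum_congr rfl h1, ← Finset.mul_sum]
  linarith

/-- an integer combination of all `N`-th roots of unity vanishes only if the coefficients are
constant -/
theorem const_of_sum_eq_zero {N : ℕ} [NeZero N] (hN : N.Prime) (G : ZMod N → ℤ)
    (h : ∑ k : ZMod N, (G k : ℂ) * ZMod.stdAddChar k = 0) : ∀ k, G k = G 0 := by
  have : Fact N.Prime := ⟨hN⟩
  set f : ℤ[X] := ∑ k : ZMod N, C (G k) * X ^ k.val with hf
  have h1 : aeval (zeta N) f = 0 := by
    simp only [hf, map_sum, map_mul, map_pow, aeval_X, zeta_pow, aeval_C]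
    simpa using h
  have hcoef : ∀ k : ZMod N, f.coeff k.val = G k := by
    intro k
    rw [hf, finsetSum_coeff, Finset.sum_eq_single k]
    · simp
    · intro b _ hb
      rw [coeff_C_mul, coeff_X_pow, if_neg, mul_zero]
      intro h2
      exact hb (ZMod.val_injective N h2).symm
    · simp
  obtain ⟨g, hg⟩ := cyclotomic_dvd hN.pos zeta_prim f h1
  have hdeg : f.natDegree ≤ N - 1 := by
    rw [hf]
    refine natDegree_sum_le_of_forall_le _ _ fun k _ => ?_
    refine (natDegree_C_mul_X_pow_le _ _).trans ?_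
    have := ZMod.val_lt k
    omega
  have hcd : (cyclotomic N ℤ).natDegree = N - 1 := by
    rw [natDegree_cyclotomic, Nat.totient_prime hN]
  obtain ⟨c, hc⟩ : ∃ c : ℤ, g = C c := by
    by_cases hg0 : g = 0
    · exact ⟨0, by simp [hg0]⟩
    · refine ⟨g.coeff 0, eq_C_of_natDegree_eq_zero ?_⟩
      have h3 : f.natDegree = (cyclotomic N ℤ).natDegree + g.natDegree := by
        rw [hg, natDegree_mul (cyclotomic_ne_zero N ℤ) hg0]
      omega
  have h4 : ∀ k : ZMod N, G k = c := by
    intro k
    rw [← hcoef k, hg, hc, mul_comm, coeff_C_mul, cyclotomic_prime]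
    rw [finsetSum_coeff, Finset.sum_eq_single k.val]
    · simp
    · intro b _ hb
      rw [coeff_X_pow, if_neg (Ne.symm hb)]
    · intro h5
      exact absurd (Finset.mem_range.mpr (ZMod.val_lt k)) h5
  intro k
  rw [h4 k, h4 0]

/-- **balance**: an integer relation between the sines says that the coefficients are even -/
theorem balance {N : ℕ} [NeZero N] (hN : N.Prime) (F : ZMod N → ℤ)
    (h : ∑ k : ZMod N, (F k : ℝ) * sn k = 0) : ∀ k, F k = F (-k) := by
  have h1 : ∑ k : ZMod N, ((F k - F (-k) : ℤ) : ℂ) * ZMod.stdAddChar k = 0 := by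
    have h2 : ∑ k : ZMod N, (F (-k) : ℂ) * ZMod.stdAddChar k =
        ∑ k : ZMod N, (F k : ℂ) * ZMod.stdAddChar (-k) := by
      rw [← Equiv.sum_comp (Equiv.neg (ZMod N))]
      simp
    have h3 : ∑ k : ZMod N, (F k : ℂ) * (sn k : ℂ) = 0 := by exact_mod_cast h
    have h4 : ∑ k : ZMod N, ((F k - F (-k) : ℤ) : ℂ) * ZMod.stdAddChar k =
        ∑ k : ZMod N, (F k : ℂ) * ZMod.stdAddChar k -
        ∑ k : ZMod N, (F (-k) : ℂ) * ZMod.stdAddChar k := by
      rw [← Finset.sum_sub_distrib]
      refine Finset.sum_congr rfl fun k _ => ?_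
      push_cast; ring
    rw [h4, h2, ← Finset.sum_sub_distrib]
    have h5 : ∀ k ∈ (Finset.univ : Finset (ZMod N)), (F k : ℂ) * ZMod.stdAddChar k -
        (F k : ℂ) * ZMod.stdAddChar (-k) = (2 * Complex.I) * ((F k : ℂ) * (sn k : ℂ)) := by
      intro k _
      rw [← mul_sub, char_sub]; ring
    rw [Finset.sum_congr rfl h5, ← Finset.mul_sum, h3, mul_zero]
  intro k
  have h2 := const_of_sum_eq_zero hN (fun k => F k - F (-k)) h1 k
  simp only [neg_zero, sub_self] at h2
  linarith

/-- the form over a finite index set: the passes with index `k` and with index `-k`, counted with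
their integer weights, cancel -/
theorem balance_sum {N : ℕ} [NeZero N] (hN : N.Prime) {ι : Type*} [DecidableEq (ZMod N)]
    (S : Finset ι) (w : ι → ℤ) (k : ι → ZMod N)
    (h : ∑ m ∈ S, (w m : ℝ) * sn (k m) = 0) (a : ZMod N) :
    ∑ m ∈ S with k m = a, w m = ∑ m ∈ S with k m = -a, w m := by
  refine balance hN (fun a => ∑ m ∈ S with k m = a, w m) ?_ a
  rw [← h, ← Finset.sum_fiberwise S k]
  refine Finset.sum_congr rfl fun b _ => ?_
  push_cast
  rw [Finset.sum_mul]
  refine Finset.sum_congr rfl fun m hm => ?_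
  rw [(Finset.mem_filter.mp hm).2]

/-! ### reflections of the copies -/

/-- the reflection of `ZMod N` with centre `m` -/
def rho {N : ℕ} (m k : ZMod N) : ZMod N := 2 * m - k

theorem rho_rho {N : ℕ} (m k : ZMod N) : rho m (rho m k) = k := by unfold rho; ring

theorem rho_fix {N : ℕ} (hN : N.Prime) (hodd : N ≠ 2) (m k : ZMod N) :
    rho m k = k ↔ k = m := by
  have : Fact N.Prime := ⟨hN⟩
  have h2 : (2 : ZMod N) ≠ 0 := by
    intro h
    have h3 : ((2 : ℕ) : ZMod N) = 0 := by exact_mod_cast h
    rw [ZMod.natCast_eq_zero_iff] at h3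
    exact hodd ((Nat.prime_dvd_prime_iff_eq hN Nat.prime_two).mp h3)
  unfold rho
  constructor
  · intro h
    have h4 : (2 : ZMod N) * (k - m) = 0 := by linear_combination -h
    rcases mul_eq_zero.mp h4 with h5 | h5
    · exact absurd h5 h2
    · exact sub_eq_zero.mp h5
  · rintro rfl; ring

/-- a nonempty set of copies closed under two different reflections contains all copies -/
theorem refl_closed {N : ℕ} (hN : N.Prime) (hodd : N ≠ 2) (m m' : ZMod N) (hm : m ≠ m')
    (S : Set (ZMod N)) (h1 : ∀ k ∈ S, rho m k ∈ S) (h2 : ∀ k ∈ S, rho m' k ∈ S)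
    (k0 : ZMod N) (hk0 : k0 ∈ S) : ∀ k, k ∈ S := by
  have : Fact N.Prime := ⟨hN⟩
  have h2' : (2 : ZMod N) ≠ 0 := by
    intro h
    have h3 : ((2 : ℕ) : ZMod N) = 0 := by exact_mod_cast h
    rw [ZMod.natCast_eq_zero_iff] at h3
    exact hodd ((Nat.prime_dvd_prime_iff_eq hN Nat.prime_two).mp h3)
  set d : ZMod N := 2 * (m' - m) with hd
  have hd0 : d ≠ 0 := mul_ne_zero h2' (sub_ne_zero.mpr (Ne.symm hm))
  have hstep : ∀ k ∈ S, k + d ∈ S := by
    intro k hk
    have := h2 _ (h1 k hk)
    have h3 : rho m' (rho m k) = k + d := by unfold rho; rw [hd]; ring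
    rwa [h3] at this
  have hmul : ∀ t : ℕ, k0 + t * d ∈ S := by
    intro t
    induction t with
    | zero => simpa using hk0
    | succ t ih =>
      have := hstep _ ih
      have h3 : k0 + t * d + d = k0 + ((t + 1 : ℕ) : ZMod N) * d := by push_cast; ring
      rwa [h3] at this
  intro k
  have h4 := hmul ((k - k0) / d).val
  rw [ZMod.natCast_zmod_val, div_mul_cancel₀ _ hd0] at h4
  simpa using h4

/-- the mirror chain: start at `m`, reflect alternately with centre `m'`, `m`, `m'`, .. -/
def chain {N : ℕ} (m m' : ZMod N) : ℕ → ZMod N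
  | 0 => m
  | t + 1 => if Even t then rho m' (chain m m' t) else rho m (chain m m' t)

theorem chain_eq {N : ℕ} (m m' : ZMod N) (t : ℕ) :
    chain m m' t = if Even t then m - t * (m' - m) else m + (t + 1) * (m' - m) := by
  induction t with
  | zero => simp [chain]
  | succ t ih =>
    by_cases ht : Even t
    · have h1 : ¬ Even (t + 1) := by rw [Nat.even_add_one]; simpa using ht
      simp only [chain, if_pos ht, if_neg h1] at ih ⊢
      rw [ih]; unfold rho; push_cast; ring
    · have h1 : Even (t + 1) := by rw [Nat.even_add_one]; exact ht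
      simp only [chain, if_neg ht, if_pos h1] at ih ⊢
      rw [ih]; unfold rho; push_cast; ring

theorem chain_last {N : ℕ} (hN : N.Prime) (hodd : N ≠ 2) (m m' : ZMod N) :
    chain m m' (N - 1) = m' := by
  have h1 : Even (N - 1) := hN.even_sub_one hodd
  rw [chain_eq, if_pos h1]
  have h2 : ((N - 1 : ℕ) : ZMod N) = -1 := by
    rw [Nat.cast_sub hN.one_le]; simp
  rw [h2]; ring

theorem chain_injOn {N : ℕ} (hN : N.Prime) (hodd : N ≠ 2) (m m' : ZMod N) (hm : m ≠ m')
    {s t : ℕ} (hs : s < N) (ht : t < N) (h : chain m m' s = chain m m' t) : s = t := by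
  have : Fact N.Prime := ⟨hN⟩
  have hd : m' - m ≠ 0 := sub_ne_zero.mpr (Ne.symm hm)
  rw [chain_eq, chain_eq] at h
  have key : ∀ a b : ℕ, a < N → b < N → (a : ZMod N) = b → a = b := by
    intro a b ha hb hab
    rw [ZMod.natCast_eq_natCast_iff', Nat.mod_eq_of_lt ha, Nat.mod_eq_of_lt hb] at hab
    exact hab
  by_cases h1 : Even s <;> by_cases h2 : Even t
  · rw [if_pos h1, if_pos h2] at h
    have h3 : ((s : ZMod N) - t) * (m' - m) = 0 := by linear_combination -h
    rcases mul_eq_zero.mp h3 with h4 | h4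
    · exact key s t hs ht (sub_eq_zero.mp h4)
    · exact absurd h4 hd
  · rw [if_pos h1, if_neg h2] at h
    have h3 : ((s : ZMod N) + t + 1) * (m' - m) = 0 := by linear_combination -h
    rcases mul_eq_zero.mp h3 with h4 | h4
    · exfalso
      have h5 : ((s + t + 1 : ℕ) : ZMod N) = 0 := by push_cast; exact h4
      rw [ZMod.natCast_eq_zero_iff] at h5
      obtain ⟨c, hc⟩ := h5
      have h6 : Even (s + t + 1) := by
        rw [Nat.even_add_one, Nat.even_add]
        tauto
      have hc1 : c = 1 := by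
        have : c * N < 2 * N := by nlinarith
        have h7 : c < 2 := lt_of_mul_lt_mul_right this (Nat.zero_le _)
        rcases Nat.lt_or_ge c 1 with h8 | h8
        · have : c = 0 := by omega
          subst this
          omega
        · omega
      subst hc1
      have hNe : Even N := by
        rw [mul_one] at hc; rwa [hc] at h6
      exact hodd ((hN.even_iff).mp hNe)
    · exact absurd h4 hd
  · rw [if_neg h1, if_pos h2] at h
    have h3 : ((s : ZMod N) + t + 1) * (m' - m) = 0 := by linear_combination h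
    rcases mul_eq_zero.mp h3 with h4 | h4
    · exfalso
      have h5 : ((s + t + 1 : ℕ) : ZMod N) = 0 := by push_cast; exact h4
      rw [ZMod.natCast_eq_zero_iff] at h5
      obtain ⟨c, hc⟩ := h5
      have h6 : Even (s + t + 1) := by
        rw [Nat.even_add_one, Nat.even_add]
        tauto
      have hc1 : c = 1 := by
        have : c * N < 2 * N := by nlinarith
        have h7 : c < 2 := lt_of_mul_lt_mul_right this (Nat.zero_le _)
        rcases Nat.lt_or_ge c 1 with h8 | h8
        · have : c = 0 := by omega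
          subst this
          omega
        · omega
      subst hc1
      have hNe : Even N := by
        rw [mul_one] at hc; rwa [hc] at h6
      exact hodd ((hN.even_iff).mp hNe)
    · exact absurd h4 hd
  · rw [if_neg h1, if_neg h2] at h
    have h3 : ((s : ZMod N) - t) * (m' - m) = 0 := by linear_combination h
    rcases mul_eq_zero.mp h3 with h4 | h4
    · exact key s t hs ht (sub_eq_zero.mp h4)
    · exact absurd h4 hd

/-- the chain runs through all copies -/
theorem chain_surj {N : ℕ} (hN : N.Prime) (hodd : N ≠ 2) (m m' : ZMod N) (hm : m ≠ m') (k : ZMod N) :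
    ∃ t, t < N ∧ chain m m' t = k := by
  have : Fact N.Prime := ⟨hN⟩
  have h1 : Function.Injective (fun t : Fin N => chain m m' t) := by
    intro s t h
    exact Fin.ext (chain_injOn hN hodd m m' hm s.2 t.2 h)
  have h2 : Function.Bijective (fun t : Fin N => chain m m' t) := by
    rw [Fintype.bijective_iff_injective_and_card]
    exact ⟨h1, by simp [ZMod.card]⟩
  obtain ⟨t, ht⟩ := h2.2 k
  exact ⟨t, t.2, ht⟩

end Pool.Agent.H34D
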