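import Mathlib
import Pool.Agent.Lib.H34D.NumThy

/-!
# Unfolding of a billiard path with directions in `D` (MP_273810, `H25D/PLAN.md`, A1)

Side `j` lies on the line `dt x (nrm j) = h j`, with unit normal `nrm j = e j * dir (m j)`,
`e j = 1` or `-1`, `dir k = d0 * exp (2 pi i k / N)`, `norm d0 = 1`.  A path has the points
`P 0, .., P (K+1)`, the bounces `P (t+1)` on side `j t` (`t < K`) and the copies `k 0, .., k K`,
`k (t+1) = 2 * m (j t) - k t`; the piece from `P t` to `P (t+1)` is parallel to `dir (k t)`.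

* `telescope`: `cr (dir (k K)) (P (K+1)) = cr (dir (k 0)) (P 0) + 2 * sum h e sn (k t - m)`;
* `no_path`: if the `h j` are linearly independent over the real algebraic numbers, `P 0` lies on
  the lines `a`, `b` with `m a ≠ m b` and `P (K+1)` on the lines `a'`, `b'` with `m a' ≠ m b'`,
  and `a` is not one of `b`, `a'`, `b'`, then there is no such path;
* `path_balance`: for a side `j` which is none of `a, b, a', b'`, the passes at side `j` from copy
  `m j + c` and from copy `m j - c` are equally many.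
-/

set_option autoImplicit false

namespace Pool.Agent.H34D

/-- determinant of two plane vectors -/
def cr (a b : ℂ) : ℝ := a.re * b.im - a.im * b.re

/-- scalar product of two plane vectors -/
def dt (a b : ℂ) : ℝ := a.re * b.re + a.im * b.im

/-- the direction of copy `k` -/
noncomputable def dir {N : ℕ} [NeZero N] (d0 : ℂ) (k : ZMod N) : ℂ := d0 * ZMod.stdAddChar k

section
variable {N : ℕ} [NeZero N] {d0 : ℂ}

theorem dir_re (k : ZMod N) : (dir d0 k).re = d0.re * cs k - d0.im * sn k := by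
  simp [dir, char_eq]

theorem dir_im (k : ZMod N) : (dir d0 k).im = d0.re * sn k + d0.im * cs k := by
  simp [dir, char_eq]

theorem char_mul (k l : ZMod N) :
    ((cs k : ℂ) + (sn k : ℂ) * Complex.I) * ((cs l : ℂ) + (sn l : ℂ) * Complex.I) =
      (cs (k + l) : ℂ) + (sn (k + l) : ℂ) * Complex.I := by
  rw [← char_eq, ← char_eq, ← char_eq, AddChar.map_add_eq_mul]

theorem cs_add (k l : ZMod N) : cs (k + l) = cs k * cs l - sn k * sn l := by
  have := congrArg Complex.re (char_mul k l)
  simp at this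
  linarith

theorem sn_add (k l : ZMod N) : sn (k + l) = sn k * cs l + cs k * sn l := by
  have := congrArg Complex.im (char_mul k l)
  simp at this
  linarith

theorem cs_sub (k l : ZMod N) : cs (k - l) = cs k * cs l + sn k * sn l := by
  rw [sub_eq_add_neg, cs_add, cs_neg, sn_neg]; ring

theorem sn_sub (k l : ZMod N) : sn (k - l) = sn k * cs l - cs k * sn l := by
  rw [sub_eq_add_neg, sn_add, cs_neg, sn_neg]; ring

omit [NeZero N] in
theorem cs_sq_add_sn_sq (k : ZMod N) : cs k ^ 2 + sn k ^ 2 = 1 :=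
  Real.cos_sq_add_sin_sq (2 * Real.pi * k.val / N)

theorem cr_dir (hd : d0.re ^ 2 + d0.im ^ 2 = 1) (k l : ZMod N) :
    cr (dir d0 k) (dir d0 l) = sn (l - k) := by
  rw [cr, dir_re, dir_re, dir_im, dir_im, sn_sub]
  linear_combination (sn l * cs k - cs l * sn k) * hd

theorem dt_dir (hd : d0.re ^ 2 + d0.im ^ 2 = 1) (k l : ZMod N) :
    dt (dir d0 k) (dir d0 l) = cs (l - k) := by
  rw [dt, dir_re, dir_re, dir_im, dir_im, cs_sub]
  linear_combination (cs l * cs k + sn l * sn k) * hd

/-- the copy after a bounce is minus the reflection of the copy before -/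
theorem dir_refl (hd : d0.re ^ 2 + d0.im ^ 2 = 1) (m k : ZMod N) :
    dir d0 (2 * m - k) = -(dir d0 k - (2 * dt (dir d0 k) (dir d0 m) : ℝ) * dir d0 m) := by
  have e1 : cs (2 * m - k) = cs (m - k) * cs m - sn (m - k) * sn m := by
    rw [← cs_add]; congr 1; ring
  have e2 : sn (2 * m - k) = sn (m - k) * cs m + cs (m - k) * sn m := by
    rw [← sn_add]; congr 1; ring
  have e3 := cs_sq_add_sn_sq m
  have e4 := cs_sq_add_sn_sq k
  rw [dt_dir hd]
  apply Complex.ext
  · simp only [dir_re, dir_im, Complex.neg_re, Complex.sub_re, Complex.mul_re, Complex.ofReal_re,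
      Complex.ofReal_im, e1, e2, cs_sub, sn_sub, zero_mul, sub_zero]
    linear_combination (-(d0.re * cs k - d0.im * sn k)) * e3
  · simp only [dir_re, dir_im, Complex.neg_im, Complex.sub_im, Complex.mul_im, Complex.ofReal_re,
      Complex.ofReal_im, e1, e2, cs_sub, sn_sub, zero_mul, add_zero]
    linear_combination (-(d0.re * sn k + d0.im * cs k)) * e3

/-- one bounce -/
theorem step (hd : d0.re ^ 2 + d0.im ^ 2 = 1) {e h : ℝ} (he : e ^ 2 = 1) (m k : ZMod N) (P : ℂ)
    (hP : dt P (e * dir d0 m) = h) :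
    cr (dir d0 (2 * m - k)) P = cr (dir d0 k) P + 2 * h * e * sn (k - m) := by
  have h1 : dt P (dir d0 m) = e * h := by
    have h2 : dt P (e * dir d0 m) = e * dt P (dir d0 m) := by
      simp [dt]; ring
    rw [h2] at hP
    rw [← hP]
    linear_combination (-dt P (dir d0 m)) * he
  have h3 : sn (k - m) = cr (dir d0 m) (dir d0 k) := (cr_dir hd m k).symm
  have h4 : (dir d0 m).re ^ 2 + (dir d0 m).im ^ 2 = 1 := by
    have := dt_dir hd m m
    rw [sub_self] at this
    have h5 : cs (0 : ZMod N) = 1 := by simp [cs]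
    rw [h5] at this
    simp only [dt] at this
    linarith
  have h6 : h = e * dt P (dir d0 m) := by rw [h1]; linear_combination (-h) * he
  rw [dir_refl hd, h3, h6]
  simp only [cr, dt, Complex.neg_re, Complex.neg_im, Complex.sub_re, Complex.sub_im,
    Complex.mul_re, Complex.mul_im, Complex.ofReal_re, Complex.ofReal_im]
  linear_combination (2 * ((dir d0 k).re * P.im - (dir d0 k).im * P.re)) * h4 +
    (-2 * (P.re * (dir d0 m).re + P.im * (dir d0 m).im) *
      ((dir d0 m).re * (dir d0 k).im - (dir d0 m).im * (dir d0 k).re)) * he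

/-- Lagrange identity -/
theorem lagrange (c u p q : ℂ) : cr c u * cr p q = dt u q * dt c p - dt u p * dt c q := by
  simp only [cr, dt]; ring

end

/-- the data of a billiard path with directions in `D`: sides `j : ι` with copies `m j`, signs
`e j`, offsets `h j`; points `P 0, .., P (K+1)`, bounce sides `j 0, .., j (K-1)`, copies
`k 0, .., k K` -/
structure Path {N : ℕ} [NeZero N] (d0 : ℂ) {ι : Type*} (m : ι → ZMod N) (e h : ι → ℝ) where
  K : ℕ
  j : ℕ → ι
  k : ℕ → ZMod N
  P : ℕ → ℂ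
  hk : ∀ t, t < K → k (t + 1) = 2 * m (j t) - k t
  hP : ∀ t, t < K → dt (P (t + 1)) ((e (j t) : ℂ) * dir d0 (m (j t))) = h (j t)
  hd : ∀ t, t ≤ K → cr (dir d0 (k t)) (P (t + 1) - P t) = 0

section
variable {N : ℕ} [NeZero N] {d0 : ℂ} {ι : Type*} {m : ι → ZMod N} {e h : ι → ℝ}

theorem cr_sub (a b c : ℂ) : cr a (b - c) = cr a b - cr a c := by simp [cr]; ring

/-- **unfolding** -/
theorem Path.telescope (hd0 : d0.re ^ 2 + d0.im ^ 2 = 1) (he : ∀ j, e j ^ 2 = 1)
    (p : Path d0 m e h) :
    cr (dir d0 (p.k p.K)) (p.P (p.K + 1)) = cr (dir d0 (p.k 0)) (p.P 0) +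
      2 * ∑ t ∈ Finset.range p.K, h (p.j t) * e (p.j t) * sn (p.k t - m (p.j t)) := by
  have key : ∀ T, T ≤ p.K → cr (dir d0 (p.k T)) (p.P (T + 1)) = cr (dir d0 (p.k 0)) (p.P 0) +
      2 * ∑ t ∈ Finset.range T, h (p.j t) * e (p.j t) * sn (p.k t - m (p.j t)) := by
    intro T
    induction T with
    | zero =>
      intro _
      have := p.hd 0 (Nat.zero_le _)
      rw [cr_sub] at this
      simp
      linarith
    | succ T ih =>
      intro hT
      have h1 := ih (by omega)
      have h2 := p.hd (T + 1) hT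
      rw [cr_sub] at h2
      have h3 := step hd0 (he (p.j T)) (m (p.j T)) (p.k T) (p.P (T + 1)) (p.hP T (by omega))
      rw [← p.hk T (by omega)] at h3
      rw [Finset.sum_range_succ]
      linarith
  exact key p.K le_rfl

end

/-! ### algebraicity -/

section
variable {N : ℕ} [NeZero N]

theorem isAlg_char (k : ZMod N) : IsAlgebraic ℚ (ZMod.stdAddChar k : ℂ) := by
  rw [← zeta_pow]
  have h1 : IsIntegral ℤ (zeta N) := zeta_prim.isIntegral (Nat.pos_of_ne_zero (NeZero.ne N))
  have h2 : IsIntegral ℚ (zeta N) := h1.tower_top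
  exact (h2.pow _).isAlgebraic

theorem isAlg_I : IsAlgebraic ℚ Complex.I := by
  refine ⟨Polynomial.X ^ 2 + 1, ?_, by simp⟩
  intro h
  have := congrArg (Polynomial.eval 0) h
  simp at this

theorem isAlg_real {x : ℝ} (hx : IsAlgebraic ℚ (x : ℂ)) : IsAlgebraic ℚ x := by
  have h : (x : ℂ) = algebraMap ℝ ℂ x := rfl
  rw [h] at hx
  exact (isAlgebraic_algebraMap_iff (algebraMap ℝ ℂ).injective).mp hx

theorem isAlg_cs (k : ZMod N) : IsAlgebraic ℚ (cs k) := by
  apply isAlg_real
  have h : (cs k : ℂ) = (ZMod.stdAddChar k + ZMod.stdAddChar (-k)) * ((2 : ℚ)⁻¹ : ℚ) := by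
    rw [char_add]; push_cast; ring
  rw [h]
  exact ((isAlg_char k).add (isAlg_char (-k))).mul (isAlgebraic_algebraMap (R := ℚ) (A := ℂ) _)

theorem isAlg_sn (k : ZMod N) : IsAlgebraic ℚ (sn k) := by
  apply isAlg_real
  have h : (sn k : ℂ) = (ZMod.stdAddChar k - ZMod.stdAddChar (-k)) * (Complex.I *
      ((-(2 : ℚ)⁻¹ : ℚ) : ℂ)) := by
    rw [char_sub]; push_cast
    linear_combination (sn k : ℂ) * Complex.I_sq
  rw [h]
  exact ((isAlg_char k).sub (isAlg_char (-k))).mul
    (isAlg_I.mul (isAlgebraic_algebraMap (R := ℚ) (A := ℂ) _))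

end

/-- linear independence over the real algebraic numbers -/
def Indep {ι : Type*} [Fintype ι] (h : ι → ℝ) : Prop :=
  ∀ c : ι → ℝ, (∀ j, IsAlgebraic ℚ (c j)) → ∑ j, c j * h j = 0 → ∀ j, c j = 0

theorem sn_ne_zero {N : ℕ} [NeZero N] (hN : N.Prime) (hodd : N ≠ 2) (k : ZMod N) (hk : k ≠ 0) :
    sn k ≠ 0 := by
  intro h0
  have h1 : (ZMod.stdAddChar k : ℂ) = ZMod.stdAddChar (-k) := by
    have := char_sub k
    rw [h0] at this
    simpa [sub_eq_zero] using this
  have h2 := ZMod.injective_stdAddChar h1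
  have : Fact N.Prime := ⟨hN⟩
  have h3 : (2 : ZMod N) * k = 0 := by linear_combination h2
  rcases mul_eq_zero.mp h3 with h4 | h4
  · have h5 : ((2 : ℕ) : ZMod N) = 0 := by exact_mod_cast h4
    rw [ZMod.natCast_eq_zero_iff] at h5
    exact hodd ((Nat.prime_dvd_prime_iff_eq hN Nat.prime_two).mp h5)
  · exact hk h4

section
variable {N : ℕ} [NeZero N] {d0 : ℂ} {ι : Type*} [Fintype ι] [DecidableEq ι] {m : ι → ZMod N}
  {e h : ι → ℝ}

/-- the point `u` lies on the line `j` -/
def OnLine (d0 : ℂ) (m : ι → ZMod N) (e h : ι → ℝ) (j : ι) (u : ℂ) : Prop :=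
  dt u ((e j : ℂ) * dir d0 (m j)) = h j

omit [Fintype ι] [DecidableEq ι] in
/-- the value at a vertex, as a linear form in the offsets -/
theorem vertex_form (hd0 : d0.re ^ 2 + d0.im ^ 2 = 1) {a b : ι} {u : ℂ}
    (ha : OnLine d0 m e h a u) (hb : OnLine d0 m e h b u) (k : ZMod N) :
    cr (dir d0 k) u * (e a * e b * sn (m b - m a)) =
      h b * (e a * cs (m a - k)) - h a * (e b * cs (m b - k)) := by
  have h1 := lagrange (dir d0 k) u ((e a : ℂ) * dir d0 (m a)) ((e b : ℂ) * dir d0 (m b))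
  unfold OnLine at ha hb
  rw [ha, hb] at h1
  have h2 : cr ((e a : ℂ) * dir d0 (m a)) ((e b : ℂ) * dir d0 (m b)) =
      e a * e b * sn (m b - m a) := by
    rw [← cr_dir hd0]
    simp [cr]; ring
  have h3 : ∀ c : ι, dt (dir d0 k) ((e c : ℂ) * dir d0 (m c)) = e c * cs (m c - k) := by
    intro c
    rw [← dt_dir hd0]
    simp [dt]; ring
  rw [h2, h3, h3] at h1
  exact h1

/-- the coefficient of `h j` in the relation of a path from the vertex on `a, b` to the vertex
on `a', b'` -/
noncomputable def coef (p : Path d0 m e h) (a b a' b' : ι) (j : ι) : ℝ :=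
  (e a * e b * sn (m b - m a)) * ((if j = b' then e a' * cs (m a' - p.k p.K) else 0) -
    (if j = a' then e b' * cs (m b' - p.k p.K) else 0)) -
  (e a' * e b' * sn (m b' - m a')) * ((if j = b then e a * cs (m a - p.k 0) else 0) -
    (if j = a then e b * cs (m b - p.k 0) else 0)) -
  2 * (e a * e b * sn (m b - m a)) * (e a' * e b' * sn (m b' - m a')) *
    (e j * ∑ t ∈ Finset.range p.K with p.j t = j, sn (p.k t - m j))

theorem coef_sum (hd0 : d0.re ^ 2 + d0.im ^ 2 = 1) (he : ∀ j, e j ^ 2 = 1)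
    (p : Path d0 m e h) {a b a' b' : ι}
    (ha : OnLine d0 m e h a (p.P 0)) (hb : OnLine d0 m e h b (p.P 0))
    (ha' : OnLine d0 m e h a' (p.P (p.K + 1))) (hb' : OnLine d0 m e h b' (p.P (p.K + 1))) :
    ∑ j, coef p a b a' b' j * h j = 0 := by
  have h1 := p.telescope hd0 he
  have h2 := vertex_form hd0 ha hb (p.k 0)
  have h3 := vertex_form hd0 ha' hb' (p.k p.K)
  set Du := e a * e b * sn (m b - m a) with hDu
  set Dw := e a' * e b' * sn (m b' - m a') with hDw
  have h4 : ∑ t ∈ Finset.range p.K, h (p.j t) * e (p.j t) * sn (p.k t - m (p.j t)) =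
      ∑ j, (e j * ∑ t ∈ Finset.range p.K with p.j t = j, sn (p.k t - m j)) * h j := by
    rw [← Finset.sum_fiberwise (Finset.range p.K) p.j]
    refine Finset.sum_congr rfl fun j _ => ?_
    rw [Finset.mul_sum, Finset.sum_mul]
    refine Finset.sum_congr rfl fun t ht => ?_
    rw [(Finset.mem_filter.mp ht).2]; ring
  have h5 : ∑ j, coef p a b a' b' j * h j =
      Du * (h b' * (e a' * cs (m a' - p.k p.K)) - h a' * (e b' * cs (m b' - p.k p.K))) -
      Dw * (h b * (e a * cs (m a - p.k 0)) - h a * (e b * cs (m b - p.k 0))) -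
      2 * Du * Dw * ∑ j, (e j * ∑ t ∈ Finset.range p.K with p.j t = j, sn (p.k t - m j)) * h j := by
    have h6 : ∀ j, coef p a b a' b' j * h j =
        Du * ((if j = b' then h b' * (e a' * cs (m a' - p.k p.K)) else 0) -
          (if j = a' then h a' * (e b' * cs (m b' - p.k p.K)) else 0)) -
        Dw * ((if j = b then h b * (e a * cs (m a - p.k 0)) else 0) -
          (if j = a then h a * (e b * cs (m b - p.k 0)) else 0)) -
        2 * Du * Dw * ((e j * ∑ t ∈ Finset.range p.K with p.j t = j, sn (p.k t - m j)) * h j) := by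
      intro j
      unfold coef
      rw [← hDu, ← hDw]
      have g : ∀ (c : ι) (x : ℝ), (if j = c then x else 0) * h j = if j = c then h c * x else 0 := by
        intro c x
        split_ifs with hc
        · rw [hc]; ring
        · ring
      rw [← g, ← g, ← g, ← g]
      ring
    rw [Finset.sum_congr rfl fun j _ => h6 j]
    simp only [Finset.sum_sub_distrib, ← Finset.mul_sum]
    simp
  rw [h5, ← h4, ← h3, ← h2]
  linear_combination (Du * Dw) * h1

omit [Fintype ι] in
theorem coef_alg (heA : ∀ j, IsAlgebraic ℚ (e j)) (p : Path d0 m e h) (a b a' b' : ι) (j : ι) :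
    IsAlgebraic ℚ (coef p a b a' b' j) := by
  have h0 : IsAlgebraic ℚ (0 : ℝ) := isAlgebraic_zero
  have hite : ∀ (q : Prop) [Decidable q] (x : ℝ), IsAlgebraic ℚ x →
      IsAlgebraic ℚ (if q then x else 0) := by
    intro q _ x hx
    split_ifs
    · exact hx
    · exact h0
  have h2 : IsAlgebraic ℚ (2 : ℝ) := by
    have := isAlgebraic_algebraMap (R := ℚ) (A := ℝ) 2
    simpa using this
  have hs : IsAlgebraic ℚ (∑ t ∈ Finset.range p.K with p.j t = j, sn (p.k t - m j)) := by
    refine Finset.sum_induction _ (IsAlgebraic ℚ) (fun x y => IsAlgebraic.add) h0 ?_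
    intro t _
    exact isAlg_sn _
  unfold coef
  have hu := ((heA a).mul (heA b)).mul (isAlg_sn (m b - m a))
  have hw := ((heA a').mul (heA b')).mul (isAlg_sn (m b' - m a'))
  refine IsAlgebraic.sub (IsAlgebraic.sub (hu.mul ?_) (hw.mul ?_)) ?_
  · exact (hite _ _ ((heA _).mul (isAlg_cs _))).sub (hite _ _ ((heA _).mul (isAlg_cs _)))
  · exact (hite _ _ ((heA _).mul (isAlg_cs _))).sub (hite _ _ ((heA _).mul (isAlg_cs _)))
  · exact ((h2.mul hu).mul hw).mul ((heA _).mul hs)

theorem alg_of_sq {x : ℝ} (hx : x ^ 2 = 1) : IsAlgebraic ℚ x := by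
  refine ⟨Polynomial.X ^ 2 - 1, ?_, by simp [hx]⟩
  intro h
  have := congrArg (Polynomial.eval 0) h
  simp at this

/-- all coefficients of the relation vanish -/
theorem coef_zero (hd0 : d0.re ^ 2 + d0.im ^ 2 = 1) (he : ∀ j, e j ^ 2 = 1) (hi : Indep h)
    (p : Path d0 m e h) {a b a' b' : ι}
    (ha : OnLine d0 m e h a (p.P 0)) (hb : OnLine d0 m e h b (p.P 0))
    (ha' : OnLine d0 m e h a' (p.P (p.K + 1))) (hb' : OnLine d0 m e h b' (p.P (p.K + 1)))
    (j : ι) : coef p a b a' b' j = 0 :=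
  hi _ (coef_alg (fun j => alg_of_sq (he j)) p a b a' b') (coef_sum hd0 he p ha hb ha' hb') j

/-- **A1 (a)**: no path between the vertex on `a, b` and the vertex on `a', b'` if `a` is not one
of `b, a', b'` -/
theorem no_path (hN : N.Prime) (hodd : N ≠ 2) (hd0 : d0.re ^ 2 + d0.im ^ 2 = 1)
    (he : ∀ j, e j ^ 2 = 1) (hi : Indep h) (p : Path d0 m e h) {a b a' b' : ι}
    (ha : OnLine d0 m e h a (p.P 0)) (hb : OnLine d0 m e h b (p.P 0))
    (ha' : OnLine d0 m e h a' (p.P (p.K + 1))) (hb' : OnLine d0 m e h b' (p.P (p.K + 1)))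
    (hm' : m a' ≠ m b') (hab : a ≠ b) (haa' : a ≠ a') (hab' : a ≠ b') : False := by
  have h1 := coef_zero hd0 he hi p ha hb ha' hb' a
  unfold coef at h1
  rw [if_neg hab', if_neg haa', if_neg hab, if_pos rfl] at h1
  have hea : e a ^ 2 = 1 := he a
  have heb : e b ^ 2 = 1 := he b
  have ne : ∀ j, e j ≠ 0 := fun j h0 => by have := he j; rw [h0] at this; norm_num at this
  have hDw : e a' * e b' * sn (m b' - m a') ≠ 0 := by
    refine mul_ne_zero (mul_ne_zero (ne _) (ne _)) (sn_ne_zero hN hodd _ ?_)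
    exact sub_ne_zero.mpr (Ne.symm hm')
  set X := ∑ t ∈ Finset.range p.K with p.j t = a, sn (p.k t - m a) with hX
  have h2 : (e a' * e b' * sn (m b' - m a')) * (e b * (cs (m b - p.k 0) -
      2 * (X * sn (m b - m a)))) = 0 := by
    linear_combination h1 + (2 * (e b * sn (m b - m a)) * (e a' * e b' * sn (m b' - m a')) * X) * hea
  have h3 : cs (m b - p.k 0) - 2 * (X * sn (m b - m a)) = 0 := by
    rcases mul_eq_zero.mp h2 with h4 | h4
    · exact absurd h4 hDw
    · rcases mul_eq_zero.mp h4 with h5 | h5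
      · exact absurd h5 (ne b)
      · exact h5
  refine rel_ne hN hodd (Finset.filter (fun t => p.j t = a) (Finset.range p.K)) (fun _ => 1)
    (fun t => p.k t - m a) (m b - m a) (m b - p.k 0) ?_
  have h4 : ∑ t ∈ Finset.range p.K with p.j t = a, ((1 : ℤ) : ℝ) * sn (p.k t - m a) *
      sn (m b - m a) = X * sn (m b - m a) := by
    rw [hX, Finset.sum_mul]
    refine Finset.sum_congr rfl fun t _ => ?_
    push_cast; ring
  rw [h4]
  linarith

/-- **A1 (b)**: balance on the far sides -/
theorem path_balance (hN : N.Prime) (hodd : N ≠ 2) (hd0 : d0.re ^ 2 + d0.im ^ 2 = 1)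
    (he : ∀ j, e j ^ 2 = 1) (hi : Indep h) (p : Path d0 m e h) {a b a' b' : ι}
    (ha : OnLine d0 m e h a (p.P 0)) (hb : OnLine d0 m e h b (p.P 0))
    (ha' : OnLine d0 m e h a' (p.P (p.K + 1))) (hb' : OnLine d0 m e h b' (p.P (p.K + 1)))
    (hm : m a ≠ m b) (hm' : m a' ≠ m b') (j : ι) (hj : j ≠ a ∧ j ≠ b ∧ j ≠ a' ∧ j ≠ b')
    (c : ZMod N) :
    ((Finset.range p.K).filter fun t => p.j t = j ∧ p.k t = m j + c).card =
      ((Finset.range p.K).filter fun t => p.j t = j ∧ p.k t = m j - c).card := by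
  have h1 := coef_zero hd0 he hi p ha hb ha' hb' j
  unfold coef at h1
  rw [if_neg hj.2.2.2, if_neg hj.2.2.1, if_neg hj.2.1, if_neg hj.1] at h1
  have ne : ∀ j, e j ≠ 0 := fun j h0 => by have := he j; rw [h0] at this; norm_num at this
  have hDw : e a' * e b' * sn (m b' - m a') ≠ 0 := by
    refine mul_ne_zero (mul_ne_zero (ne _) (ne _)) (sn_ne_zero hN hodd _ ?_)
    exact sub_ne_zero.mpr (Ne.symm hm')
  have hDu : e a * e b * sn (m b - m a) ≠ 0 := by
    refine mul_ne_zero (mul_ne_zero (ne _) (ne _)) (sn_ne_zero hN hodd _ ?_)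
    exact sub_ne_zero.mpr (Ne.symm hm)
  set X := ∑ t ∈ Finset.range p.K with p.j t = j, sn (p.k t - m j) with hX
  have h2 : X = 0 := by
    have h3 : (e a * e b * sn (m b - m a)) * ((e a' * e b' * sn (m b' - m a')) * (e j * X)) = 0 := by
      linear_combination (-(1 : ℝ) / 2) * h1
    rcases mul_eq_zero.mp h3 with h4 | h4
    · exact absurd h4 hDu
    · rcases mul_eq_zero.mp h4 with h5 | h5
      · exact absurd h5 hDw
      · rcases mul_eq_zero.mp h5 with h6 | h6
        · exact absurd h6 (ne j)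
        · exact h6
  have h3 := balance_sum hN (Finset.filter (fun t => p.j t = j) (Finset.range p.K)) (fun _ => 1)
    (fun t => p.k t - m j) (by rw [← h2, hX]; simp) c
  have h4 : ∀ c' : ZMod N, ∑ t ∈ Finset.filter (fun t => p.k t - m j = c')
      (Finset.filter (fun t => p.j t = j) (Finset.range p.K)), (1 : ℤ) =
      (((Finset.range p.K).filter fun t => p.j t = j ∧ p.k t = m j + c').card : ℤ) := by
    intro c'
    rw [Finset.filter_filter, Finset.sum_const, nsmul_eq_mul, mul_one]
    congr 2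
    ext t
    simp only [Finset.mem_filter, Finset.mem_range]
    constructor
    · rintro ⟨h5, h6, h7⟩
      exact ⟨h5, h6, by rw [← h7]; ring⟩
    · rintro ⟨h5, h6, h7⟩
      exact ⟨h5, h6, by rw [h7]; ring⟩
  rw [h4, h4] at h3
  have h5 := Int.ofNat.inj h3
  rw [h5]
  simp only [sub_eq_add_neg]

end

end Pool.Agent.H34D
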